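import Mathlib

/-!
# Self-similar groups given by a recursion, and level-transitivity
-/

namespace Pool.Agent.Helper322.LT

/-- A recursion over the alphabet `X` with generating symbols `S`: every symbol `s` comes with a
permutation `perm s` of the alphabet and, for every letter `x`, with a group word `word s x` in
the symbols. A group word is a list of signed symbols, `(t, true)` standing for `t` and
`(t, false)` for the inverse of `t`. The automorphism `s` of the tree of finite words is defined by
`s (x w) = (perm s x) (word s x) (w)`. -/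
structure Rec (X S : Type) where
  /-- the action of a symbol on the first letter -/
  perm : S → Equiv.Perm X
  /-- the section of a symbol at a letter -/
  word : S → X → List (S × Bool)

/-- Level `n` of the tree: words of length `n` over `X`, first letter first. -/
def Level (X : Type) : ℕ → Type
  | 0 => Unit
  | n + 1 => X × Level X n

/-- The value of a group word, given the values of the symbols. -/
def evalWord {S α : Type} (p : S → Equiv.Perm α) (w : List (S × Bool)) : Equiv.Perm α :=
  (w.map fun t => if t.2 then p t.1 else (p t.1)⁻¹).prod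

/-- The action of the symbols on the words of length `n`:
`s (x w) = (perm s x) (word s x) (w)`. Here `Equiv.prodShear e f` is the bijection
`(x, w) ↦ (e x, f x w)`. -/
def Rec.act {X S : Type} (R : Rec X S) : (n : ℕ) → S → Equiv.Perm (Level X n)
  | 0 => fun _ => Equiv.refl Unit
  | n + 1 => fun s => Equiv.prodShear (R.perm s) fun x => evalWord (R.act n) (R.word s x)

/-- The group generated by the symbols acts transitively on every level of the tree. -/
def Rec.LevelTransitive {X S : Type} (R : Rec X S) : Prop :=
  ∀ (n : ℕ) (u v : Level X n), ∃ g ∈ Subgroup.closure (Set.range (R.act n)), g u = v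

/-- Finite lists of numbers and signs, the possible inputs of an algorithm. -/
abbrev Data : Type := ℕ × List (List (ℕ × List (ℕ × Bool)))

/-- The finite list given to an algorithm: the size `d` of the alphabet, and for every symbol the
list over the letters `x` of the image of `x` and of the section at `x`. -/
def code {d k : ℕ} (R : Rec (Fin d) (Fin k)) : Data :=
  (d, List.ofFn fun i : Fin k => List.ofFn fun x : Fin d =>
    ((R.perm i x : ℕ), (R.word i x).map fun t => ((t.1 : ℕ), t.2)))

/-- The partial function `f` halts on the input `R` and tells correctly whether the group given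
by `R` is level-transitive. -/
def CorrectOn (f : Data →. Bool) {d k : ℕ} (R : Rec (Fin d) (Fin k)) : Prop :=
  ∃ b : Bool, f (code R) = Part.some b ∧ (b = true ↔ R.LevelTransitive)

/-! ### basic lemmas -/

variable {X S : Type}

theorem evalWord_nil {α : Type} (p : S → Equiv.Perm α) : evalWord p [] = 1 := rfl

theorem evalWord_cons {α : Type} (p : S → Equiv.Perm α) (t : S × Bool) (w : List (S × Bool)) :
    evalWord p (t :: w) = (if t.2 then p t.1 else (p t.1)⁻¹) * evalWord p w := rfl

theorem evalWord_append {α : Type} (p : S → Equiv.Perm α) (u w : List (S × Bool)) :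
    evalWord p (u ++ w) = evalWord p u * evalWord p w := by
  unfold evalWord
  rw [List.map_append, List.prod_append]

theorem evalWord_single {α : Type} (p : S → Equiv.Perm α) (s : S) :
    evalWord p [(s, true)] = p s := by
  simp [evalWord]

theorem evalWord_replicate {α : Type} (p : S → Equiv.Perm α) (n : ℕ) (s : S) :
    evalWord p (List.replicate n (s, true)) = p s ^ n := by
  simp [evalWord]

/-- the inverse word -/
def invWord (w : List (S × Bool)) : List (S × Bool) := (w.map fun t => (t.1, !t.2)).reverse

theorem evalWord_inv {α : Type} (p : S → Equiv.Perm α) (w : List (S × Bool)) :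
    evalWord p (invWord w) = (evalWord p w)⁻¹ := by
  induction w with
  | nil => simp [invWord, evalWord]
  | cons t w ih =>
    have : invWord (t :: w) = invWord w ++ [(t.1, !t.2)] := by simp [invWord]
    rw [this, evalWord_append, ih, evalWord_cons p t w, mul_inv_rev]
    congr 1
    rcases t with ⟨s, b⟩
    cases b <;> simp [evalWord]

theorem act_succ (R : Rec X S) (n : ℕ) (s : S) (x : X) (v : Level X n) :
    R.act (n + 1) s (x, v) = (R.perm s x, evalWord (R.act n) (R.word s x) v) := rfl

theorem evalWord_map {S' α : Type} (p : S' → Equiv.Perm α) (f : S → S') (w : List (S × Bool)) :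
    evalWord p (w.map fun t => (f t.1, t.2)) = evalWord (fun s => p (f s)) w := by
  unfold evalWord
  rw [List.map_map]
  rfl

/-- two points of a level are connected -/
def Conn (R : Rec X S) (n : ℕ) (u v : Level X n) : Prop :=
  ∃ g ∈ Subgroup.closure (Set.range (R.act n)), g u = v

theorem Conn.refl (R : Rec X S) (n : ℕ) (u : Level X n) : Conn R n u u :=
  ⟨1, one_mem _, rfl⟩

theorem Conn.symm {R : Rec X S} {n : ℕ} {u v : Level X n} (h : Conn R n u v) : Conn R n v u := by
  obtain ⟨g, hg, rfl⟩ := h
  exact ⟨g⁻¹, inv_mem hg, by simp⟩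

theorem Conn.trans {R : Rec X S} {n : ℕ} {u v w : Level X n} (h : Conn R n u v)
    (h' : Conn R n v w) : Conn R n u w := by
  obtain ⟨g, hg, rfl⟩ := h
  obtain ⟨g', hg', rfl⟩ := h'
  exact ⟨g' * g, mul_mem hg' hg, rfl⟩

theorem Conn.gen (R : Rec X S) (n : ℕ) (s : S) (u : Level X n) : Conn R n u (R.act n s u) :=
  ⟨R.act n s, Subgroup.subset_closure ⟨s, rfl⟩, rfl⟩

theorem invariant_of_gen {R : Rec X S} {n : ℕ} {β : Type} (I : Level X n → β)
    (h : ∀ s u, I (R.act n s u) = I u) {g : Equiv.Perm (Level X n)}
    (hg : g ∈ Subgroup.closure (Set.range (R.act n))) : ∀ u, I (g u) = I u := by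
  induction hg using Subgroup.closure_induction with
  | mem x hx =>
    obtain ⟨s, rfl⟩ := hx
    exact h s
  | one => intro u; rfl
  | mul x y _ _ hx hy =>
    intro u
    rw [Equiv.Perm.mul_apply, hx, hy]
  | inv x _ hx =>
    intro u
    have := hx (x⁻¹ u)
    rw [← this]
    simp

/-! ### transport along equivalences -/

variable {X' S' : Type}

/-- transport of a recursion -/
def Rec.map (R : Rec X S) (e : X ≃ X') (f : S ≃ S') : Rec X' S' where
  perm := fun s => (e.symm.trans (R.perm (f.symm s))).trans e
  word := fun s x => (R.word (f.symm s) (e.symm x)).map fun t => (f t.1, t.2)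

/-- transport of words -/
def levelMap (e : X ≃ X') : (n : ℕ) → Level X n ≃ Level X' n
  | 0 => Equiv.refl _
  | n + 1 => e.prodCongr (levelMap e n)

theorem evalWord_conj {α β : Type} (e : α ≃ β) (p : S → Equiv.Perm α) (q : S → Equiv.Perm β)
    (h : ∀ s v, q s (e v) = e (p s v)) (w : List (S × Bool)) (v : α) :
    evalWord q w (e v) = e (evalWord p w v) := by
  induction w generalizing v with
  | nil => rfl
  | cons t w ih =>
    rw [evalWord_cons, evalWord_cons, Equiv.Perm.mul_apply, Equiv.Perm.mul_apply, ih]
    rcases t with ⟨s, b⟩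
    cases b
    · simp only [Bool.false_eq_true, if_false]
      rw [Equiv.Perm.inv_eq_iff_eq]
      rw [h]
      simp
    · simp only [if_true]
      exact h s _

theorem act_map (R : Rec X S) (e : X ≃ X') (f : S ≃ S') (n : ℕ) (s : S) (v : Level X n) :
    (R.map e f).act n (f s) (levelMap e n v) = levelMap e n (R.act n s v) := by
  induction n generalizing s with
  | zero => rfl
  | succ n ih =>
    obtain ⟨x, v⟩ := v
    have e1 : levelMap e (n + 1) (x, v) = (e x, levelMap e n v) := rfl
    have e2 : levelMap e (n + 1) (R.act (n + 1) s (x, v)) =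
      (e (R.perm s x), levelMap e n (evalWord (R.act n) (R.word s x) v)) := rfl
    rw [e1, e2, act_succ]
    refine Prod.ext ?_ ?_
    · simp [Rec.map]
    · simp only [Rec.map, Equiv.symm_apply_apply]
      rw [evalWord_map]
      exact evalWord_conj (levelMap e n) _ _ (fun s v => ih s v) _ v

theorem levelTransitive_map (R : Rec X S) (e : X ≃ X') (f : S ≃ S') :
    (R.map e f).LevelTransitive ↔ R.LevelTransitive := by
  have key : ∀ n, ∀ g ∈ Subgroup.closure (Set.range (R.act n)),
      ∃ g' ∈ Subgroup.closure (Set.range ((R.map e f).act n)),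
        ∀ v, g' (levelMap e n v) = levelMap e n (g v) := by
    intro n g hg
    induction hg using Subgroup.closure_induction with
    | mem x hx =>
      obtain ⟨s, rfl⟩ := hx
      exact ⟨_, Subgroup.subset_closure ⟨f s, rfl⟩, fun v => act_map R e f n s v⟩
    | one => exact ⟨1, one_mem _, fun v => rfl⟩
    | mul x y _ _ hx hy =>
      obtain ⟨x', h1, h2⟩ := hx
      obtain ⟨y', h3, h4⟩ := hy
      exact ⟨x' * y', mul_mem h1 h3, fun v => by
        rw [Equiv.Perm.mul_apply, h4, h2]; rfl⟩
    | inv x _ hx =>
      obtain ⟨x', h1, h2⟩ := hx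
      refine ⟨x'⁻¹, inv_mem h1, fun v => ?_⟩
      rw [Equiv.Perm.inv_eq_iff_eq, h2]
      simp
  have key' : ∀ n, ∀ g ∈ Subgroup.closure (Set.range ((R.map e f).act n)),
      ∃ g' ∈ Subgroup.closure (Set.range (R.act n)),
        ∀ v, g (levelMap e n v) = levelMap e n (g' v) := by
    intro n g hg
    induction hg using Subgroup.closure_induction with
    | mem x hx =>
      obtain ⟨s, rfl⟩ := hx
      refine ⟨_, Subgroup.subset_closure ⟨f.symm s, rfl⟩, fun v => ?_⟩
      have := act_map R e f n (f.symm s) v
      rwa [Equiv.apply_symm_apply] at this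
    | one => exact ⟨1, one_mem _, fun v => rfl⟩
    | mul x y _ _ hx hy =>
      obtain ⟨x', h1, h2⟩ := hx
      obtain ⟨y', h3, h4⟩ := hy
      exact ⟨x' * y', mul_mem h1 h3, fun v => by
        rw [Equiv.Perm.mul_apply, h4, h2]; rfl⟩
    | inv x _ hx =>
      obtain ⟨x', h1, h2⟩ := hx
      refine ⟨x'⁻¹, inv_mem h1, fun v => ?_⟩
      rw [Equiv.Perm.inv_eq_iff_eq, h2]
      simp
  constructor
  · intro h n u v
    obtain ⟨g, hg, hgu⟩ := h n (levelMap e n u) (levelMap e n v)
    obtain ⟨g', hg', h2⟩ := key' n g hg
    refine ⟨g', hg', ?_⟩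
    rw [h2] at hgu
    exact (levelMap e n).injective hgu
  · intro h n u v
    obtain ⟨g, hg, hgu⟩ := h n ((levelMap e n).symm u) ((levelMap e n).symm v)
    obtain ⟨g', hg', h2⟩ := key n g hg
    refine ⟨g', hg', ?_⟩
    have := h2 ((levelMap e n).symm u)
    rw [hgu] at this
    simpa using this

end Pool.Agent.Helper322.LT
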