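import Pool.Agent.Helper322.LT.Marker

/-!
# Level-transitivity of the full recursion is equivalent to non-halting
-/

namespace Pool.Agent.Helper322.LT

variable {K : ℕ} [NeZero K] (P : Fin K → Fin K → List (Fin K))

/-- halting in exactly `m` steps -/
def HIn : ℕ → Cfg K → Prop
  | 0, C => step P C = none
  | m + 1, C => ∃ C', step P C = some C' ∧ HIn m C'

/-- halting -/
def Halts (C : Cfg K) : Prop := ∃ m, HIn P m C

theorem not_halts_step {C : Cfg K} (h : ¬ Halts P C) :
    ∃ C', step P C = some C' ∧ ¬ Halts P C' := by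
  rcases hs : step P C with _ | C'
  · exact absurd ⟨0, hs⟩ h
  · exact ⟨C', rfl, fun ⟨m, hm⟩ => h ⟨m + 1, C', hs, hm⟩⟩

/-- last coordinate of the shift vector -/
noncomputable def gl (N n : ℕ) (v : Level (Lt K) (n + 1)) : ZMod 3 := lastZ n (G P N (n + 1) v)

theorem gl_zero (N : ℕ) (v : Level (Lt K) 1) : gl P N 0 v = phi v.1 := rfl

theorem gl_succ_z (N n : ℕ) (v : Level (Lt K) (n + 1)) :
    gl P N (n + 1) (.z, v) = - gl P N n v - gl P N n (evalWord (ta P (n + 1)) (kw N) v) := by
  have e : gl P N (n + 1) (.z, v) = lastZ n (if (Lt.z : Lt K) = .z then - G P N (n + 1) v -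
    G P N (n + 1) (evalWord (ta P (n + 1)) (kw N) v) else 0) := rfl
  rw [e, if_pos rfl, lastZ_sub, lastZ_neg]
  rfl

theorem gl_succ_ne (N n : ℕ) (y : Lt K) (hy : y ≠ .z) (v : Level (Lt K) (n + 1)) :
    gl P N (n + 1) (y, v) = 0 := by
  have e : gl P N (n + 1) (y, v) = lastZ n (if y = .z then - G P N (n + 1) v -
    G P N (n + 1) (evalWord (ta P (n + 1)) (kw N) v) else 0) := rfl
  rw [e, if_neg hy, lastZ_zero]

section Halt

variable (t0 : List (Fin K))

theorem claim1 {M0 : ℕ} (h0 : HIn P M0 (.s t0)) :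
    ∀ (n m : ℕ) (C : Cfg K), HIn P m C → m ≤ M0 → n ≤ m → ∀ v : Level (Lt K) (n + 1),
      gl P (num t0) n (kapC P (n + 1) C v) = gl P (num t0) n v := by
  intro n
  induction n with
  | zero =>
    intro m C _ _ _ v
    rw [gl_zero, gl_zero, kapC_letter]
  | succ n ih =>
    intro m C hC hm hn v
    obtain ⟨m', rfl⟩ : ∃ m', m = m' + 1 := ⟨m - 1, by omega⟩
    obtain ⟨C', hs, hC'⟩ := hC
    obtain ⟨y, v⟩ := v
    by_cases hy : y = .z
    · subst hy
      rw [kapC_step P C C' hs, gl_succ_z, gl_succ_z, eval_kw,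
        ih m' C' hC' (by omega) (by omega), ih M0 _ h0 le_rfl (by omega),
        ih m' C' hC' (by omega) (by omega), ih M0 _ h0 le_rfl (by omega)]
    · rw [gl_succ_ne P _ _ y hy]
      have h1 := kapC_letter P (n + 1) C (y, v)
      rcases hk : kapC P (n + 2) C (y, v) with ⟨y', v'⟩
      rw [hk] at h1
      have h2 : y' = y := h1
      rw [gl_succ_ne P _ _ y' (by rw [h2]; exact hy)]

theorem claim2 {M0 : ℕ} (h0 : HIn P M0 (.s t0)) :
    ∀ (m : ℕ) (C : Cfg K), HIn P m C → m ≤ M0 → ∀ v : Level (Lt K) (m + 2),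
      gl P (num t0) (m + 1) (kapC P (m + 2) C v) = - gl P (num t0) (m + 1) v := by
  intro m
  induction m with
  | zero =>
    intro C hC _ v
    obtain ⟨y, v⟩ := v
    by_cases hy : y = .z
    · subst hy
      rw [kapC_halt P C hC, gl_succ_z, gl_succ_z, eval_kw]
      simp only [gl_zero]
      rw [kapC_letter, kapC_letter, kst_letter, phi_swap]
      ring
    · rw [gl_succ_ne P _ _ y hy]
      have h1 := kapC_letter P 1 C (y, v)
      rcases hk : kapC P 2 C (y, v) with ⟨y', v'⟩
      rw [hk] at h1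
      have h2 : y' = y := h1
      rw [gl_succ_ne P _ _ y' (by rw [h2]; exact hy), neg_zero]
  | succ m ih =>
    intro C hC hm v
    obtain ⟨C', hs, hC'⟩ := hC
    obtain ⟨y, v⟩ := v
    by_cases hy : y = .z
    · subst hy
      rw [kapC_step P C C' hs, gl_succ_z, gl_succ_z, eval_kw,
        claim1 P t0 h0 (m + 1) M0 _ h0 le_rfl hm, claim1 P t0 h0 (m + 1) M0 _ h0 le_rfl hm,
        ih C' hC' (by omega)]
      ring
    · rw [gl_succ_ne P _ _ y hy]
      have h1 := kapC_letter P (m + 2) C (y, v)
      rcases hk : kapC P (m + 3) C (y, v) with ⟨y', v'⟩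
      rw [hk] at h1
      have h2 : y' = y := h1
      rw [gl_succ_ne P _ _ y' (by rw [h2]; exact hy), neg_zero]

theorem gl_dead {M0 : ℕ} (h0 : HIn P M0 (.s t0)) (v : Level (Lt K) (M0 + 3)) :
    gl P (num t0) (M0 + 2) v = 0 := by
  obtain ⟨y, v⟩ := v
  by_cases hy : y = .z
  · subst hy
    rw [gl_succ_z, eval_kw, claim2 P t0 h0 M0 _ h0 le_rfl]
    ring
  · exact gl_succ_ne P _ _ y hy v

/-- if the machine halts then some level is not transitive -/
theorem not_transitive {t0 : List (Fin K)} (h : Halts P (.s t0)) :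
    ¬ (RX P (num t0)).LevelTransitive := by
  obtain ⟨M0, h0⟩ := h
  intro hT
  set z0 : Level (Lt K) (M0 + 3) := (Lt.z, (Lt.z, (Lt.z, (levelMk M0)))) with hz0
  obtain ⟨g, hg, hgu⟩ := hT (M0 + 3) (zipL _ z0 0) (zipL _ z0 (oneZ (M0 + 2)))
  have hinv : ∀ s u, lastX (M0 + 2) ((RX P (num t0)).act (M0 + 3) s u) = lastX (M0 + 2) u := by
    intro s u
    obtain ⟨v, i, rfl⟩ := exists_zip (M0 + 3) u
    rcases s with _ | t
    · rw [act_none, lastX_zip, lastX_zip, lastZ_add]
      have : lastZ (M0 + 2) (G P (num t0) (M0 + 3) v) = 0 := gl_dead P t0 h0 v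
      rw [this, add_zero]
    · rw [act_some, lastX_zip, lastX_zip]
  have h1 := invariant_of_gen (lastX (M0 + 2)) hinv hg (zipL _ z0 0)
  rw [hgu, lastX_zip, lastX_zip, lastZ_oneZ, lastZ_zero] at h1
  exact absurd h1 (by decide)
where
  levelMk : (n : ℕ) → Level (Lt K) n
    | 0 => ()
    | n + 1 => (.z, levelMk n)

end Halt

/-! ### the odometer -/

theorem odo_pow (n : ℕ) (v : Level (Lt K) n) (j : ℕ) (hj : j < Nat.card (Lt K)) :
    ((ta P (n + 1) .odo) ^ j) ((numE K).symm ⟨0, card_pos K⟩, v) =
      ((numE K).symm ⟨j, hj⟩, v) := by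
  induction j with
  | zero => rfl
  | succ j ih =>
    rw [pow_succ', Equiv.Perm.mul_apply, ih (by omega), ta_succ]
    have h1 : tperm (K := K) .odo ((numE K).symm ⟨j, by omega⟩) = (numE K).symm ⟨j + 1, hj⟩ := by
      simp only [tperm, Equiv.trans_apply, Equiv.apply_symm_apply]
      congr 1
      obtain ⟨M, hM⟩ : ∃ M, Nat.card (Lt K) = M + 1 := ⟨Nat.card (Lt K) - 1, by omega⟩
      have : ∀ (M' : ℕ) (hM' : M' = M + 1) (a : j < M') (b : j + 1 < M'),
          finRotate M' ⟨j, a⟩ = ⟨j + 1, b⟩ := by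
        intro M' hM' a b
        subst hM'
        exact finRotate_of_lt (by omega)
      exact this _ hM _ _
    have h2 : tword P .odo ((numE K).symm ⟨j, by omega⟩) = [] := by
      have : ¬ (j + 1 = Nat.card (Lt K)) := by omega
      simp [tword, this]
    rw [h1, h2]
    rfl

theorem odo_cycle (n : ℕ) (v : Level (Lt K) n) :
    ((ta P (n + 1) .odo) ^ (Nat.card (Lt K))) ((numE K).symm ⟨0, card_pos K⟩, v) =
      ((numE K).symm ⟨0, card_pos K⟩, ta P n .odo v) := by
  obtain ⟨M, hM⟩ : ∃ M, Nat.card (Lt K) = M + 1 := ⟨Nat.card (Lt K) - 1, by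
    have := card_pos K; omega⟩
  have e : (ta P (n + 1) .odo) ^ (Nat.card (Lt K)) = ta P (n + 1) .odo *
      (ta P (n + 1) .odo) ^ M := by
    rw [hM, pow_succ']
  rw [e, Equiv.Perm.mul_apply, odo_pow P n v M (by omega), ta_succ]
  have h1 : tperm (K := K) .odo ((numE K).symm ⟨M, by omega⟩) =
      (numE K).symm ⟨0, card_pos K⟩ := by
    simp only [tperm, Equiv.trans_apply, Equiv.apply_symm_apply]
    congr 1
    have : ∀ (M' : ℕ) (hM' : M' = M + 1) (a : M < M') (b : 0 < M'),
        finRotate M' ⟨M, a⟩ = ⟨0, b⟩ := by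
      intro M' hM' a b
      subst hM'
      exact finRotate_last
    exact this _ hM _ _
  have h2 : tword P .odo ((numE K).symm ⟨M, by omega⟩) = [(.odo, true)] := by
    simp [tword, hM]
  rw [h1, h2, evalWord_single]

theorem odo_transitive (n : ℕ) (v v' : Level (Lt K) n) : (ta P n .odo).SameCycle v v' := by
  induction n with
  | zero => exact Equiv.Perm.SameCycle.refl _ _
  | succ n ih =>
    set g := ta P (n + 1) .odo with hg
    set x0 : Lt K := (numE K).symm ⟨0, card_pos K⟩ with hx0
    have hA : ∀ (x : Lt K) (v : Level (Lt K) n), g.SameCycle (x0, v) (x, v) := by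
      intro x v
      refine ⟨((numE K x).val : ℤ), ?_⟩
      rw [zpow_natCast]
      have := odo_pow P n v (numE K x).val (numE K x).isLt
      rw [← hg, ← hx0] at this
      rw [this]
      simp
    have hB : ∀ v : Level (Lt K) n, g.SameCycle (x0, v) (x0, ta P n .odo v) := by
      intro v
      refine ⟨(Nat.card (Lt K) : ℤ), ?_⟩
      rw [zpow_natCast]
      exact odo_cycle P n v
    have hC : ∀ (k : ℕ) (v : Level (Lt K) n), g.SameCycle (x0, v) (x0, (ta P n .odo ^ k) v) := by
      intro k
      induction k with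
      | zero => intro v; exact Equiv.Perm.SameCycle.refl _ _
      | succ k ihk =>
        intro v
        rw [pow_succ', Equiv.Perm.mul_apply]
        exact (ihk v).trans (hB _)
    have hD : ∀ v v' : Level (Lt K) n, g.SameCycle (x0, v) (x0, v') := by
      intro v v'
      obtain ⟨k, hk⟩ := ih v v'
      rcases Int.eq_nat_or_neg k with ⟨m, rfl | rfl⟩
      · rw [zpow_natCast] at hk
        rw [← hk]
        exact hC m v
      · have : v = (ta P n .odo ^ m) v' := by
          rw [← hk, zpow_neg, zpow_natCast]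
          simp
        rw [this]
        exact (hC m v').symm
    obtain ⟨x, v⟩ := v
    obtain ⟨x', v'⟩ := v'
    exact ((hA x v).symm.trans (hD v v')).trans (hA x' v')

/-- moving the `Lt K`-part -/
theorem conn_left (N n : ℕ) (v v' : Level (Lt K) n) (i : Level (ZMod 3) n) :
    Conn (RX P N) n (zipL n v i) (zipL n v' i) := by
  obtain ⟨k, hk⟩ := odo_transitive P n v v'
  refine ⟨((RX P N).act n (some .odo)) ^ k,
    Subgroup.zpow_mem _ (Subgroup.subset_closure (Set.mem_range_self (some Tl.odo))) k, ?_⟩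
  have hpow : ∀ (m : ℕ) (v : Level (Lt K) n), (((RX P N).act n (some .odo)) ^ m) (zipL n v i) =
      zipL n ((ta P n .odo ^ m) v) i := by
    intro m
    induction m with
    | zero => intro v; rfl
    | succ m ih =>
      intro v
      rw [pow_succ, pow_succ, Equiv.Perm.mul_apply, Equiv.Perm.mul_apply, act_some, ih]
  rcases Int.eq_nat_or_neg k with ⟨m, rfl | rfl⟩
  · rw [zpow_natCast] at hk ⊢
    rw [hpow, hk]
  · rw [zpow_neg, zpow_natCast, Equiv.Perm.inv_eq_iff_eq, hpow]
    congr 1
    rw [← hk, zpow_neg, zpow_natCast]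
    simp

/-- the possible shifts -/
def shiftGrp (N n : ℕ) : AddSubgroup (Level (ZMod 3) n) where
  carrier := {δ | ∀ v i, Conn (RX P N) n (zipL n v i) (zipL n v (i + δ))}
  zero_mem' := by
    intro v i
    rw [add_zero]
    exact Conn.refl _ _ _
  add_mem' := by
    intro a b ha hb v i
    rw [← add_assoc]
    exact (ha v i).trans (hb v (i + a))
  neg_mem' := by
    intro a ha v i
    have := ha v (i + -a)
    rw [neg_add_cancel_right] at this
    exact this.symm

theorem G_mem (N n : ℕ) (v0 : Level (Lt K) n) : G P N n v0 ∈ shiftGrp P N n := by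
  intro v i
  have h1 := Conn.gen (RX P N) n none (zipL n v0 i)
  rw [act_none] at h1
  exact ((conn_left P N n v v0 i).trans h1).trans (conn_left P N n v0 v _)

section NonHalt

theorem G_inv {t0 : List (Fin K)} (h0 : ¬ Halts P (.s t0)) :
    ∀ (n : ℕ) (C : Cfg K), ¬ Halts P C → ∀ v : Level (Lt K) n,
      G P (num t0) n (kapC P n C v) = G P (num t0) n v := by
  intro n
  induction n with
  | zero => intro C _ v; rfl
  | succ n ih =>
    intro C hC v
    obtain ⟨C', hs, hC'⟩ := not_halts_step P hC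
    obtain ⟨y, v⟩ := v
    have h1 := kapC_letter P n C (y, v)
    by_cases hy : y = .z
    · subst hy
      rw [kapC_step P C C' hs]
      simp only [G, if_true]
      rw [eval_kw, ih C' hC', ih _ h0, ih C' hC', ih _ h0]
    · rcases hk : kapC P (n + 1) C (y, v) with ⟨y', v'⟩
      rw [hk] at h1
      have h2 : y' = y := h1
      subst h2
      simp only [G, if_neg hy]

/-- a pair as a word -/
def pairZ (n : ℕ) (a : ZMod 3) (x : Level (ZMod 3) n) : Level (ZMod 3) (n + 1) := (a, x)

theorem pairZ_add (n : ℕ) (a b : ZMod 3) (x y : Level (ZMod 3) n) :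
    pairZ n a x + pairZ n b y = pairZ n (a + b) (x + y) := rfl

theorem pairZ_neg (n : ℕ) (a : ZMod 3) (x : Level (ZMod 3) n) :
    - pairZ n a x = pairZ n (-a) (-x) := rfl

theorem pairZ_zero (n : ℕ) : (0 : Level (ZMod 3) (n + 1)) = pairZ n 0 0 := rfl

theorem pairZ_nsmul (n : ℕ) (m : ℕ) : m • pairZ n 1 0 = pairZ n m 0 := by
  induction m with
  | zero => rw [zero_smul, pairZ_zero]; simp
  | succ m ih => rw [succ_nsmul, ih, pairZ_add]; simp

theorem shift_top {t0 : List (Fin K)} (h0 : ¬ Halts P (.s t0)) (n : ℕ)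
    (δ : Level (ZMod 3) n) : δ ∈ AddSubgroup.closure (Set.range (G P (num t0) n)) := by
  induction n with
  | zero =>
    have : δ = 0 := rfl
    rw [this]; exact zero_mem _
  | succ n ih =>
    obtain ⟨c, δ⟩ := δ
    have hz : ∀ v, G P (num t0) (n + 1) (.z, v) = pairZ n 0 (G P (num t0) n v) := by
      intro v
      have e : G P (num t0) (n + 1) (.z, v) = pairZ n 0 (- G P (num t0) n v -
        G P (num t0) n (evalWord (ta P n) (kw (num t0)) v)) := by
        simp only [G, if_true]
        rfl
      rw [e, eval_kw, G_inv P h0 n _ h0, levelZ_three]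
    have h1 : pairZ n 0 δ ∈ AddSubgroup.closure (Set.range (G P (num t0) (n + 1))) := by
      have : ∀ x ∈ AddSubgroup.closure (Set.range (G P (num t0) n)),
          pairZ n 0 x ∈ AddSubgroup.closure (Set.range (G P (num t0) (n + 1))) := by
        intro x hx
        induction hx using AddSubgroup.closure_induction with
        | mem x hx =>
          obtain ⟨v, rfl⟩ := hx
          rw [← hz]
          exact AddSubgroup.subset_closure ⟨_, rfl⟩
        | zero => rw [← pairZ_zero]; exact zero_mem _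
        | add x y _ _ hx hy =>
          have := add_mem hx hy
          rwa [pairZ_add, add_zero] at this
        | neg x _ hx =>
          have := neg_mem hx
          rwa [pairZ_neg, neg_zero] at this
      exact this δ (ih δ)
    have h2 : pairZ n 1 0 ∈ AddSubgroup.closure (Set.range (G P (num t0) (n + 1))) := by
      have e : G P (num t0) (n + 1) (.y1, levelPt n) = pairZ n 1 0 := by
        simp only [G]
        rfl
      rw [← e]
      exact AddSubgroup.subset_closure ⟨_, rfl⟩
    have h3 : pairZ n c 0 ∈ AddSubgroup.closure (Set.range (G P (num t0) (n + 1))) := by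
      have h4 := AddSubgroup.nsmul_mem _ h2 c.val
      rwa [pairZ_nsmul, ZMod.natCast_zmod_val] at h4
    have h5 := add_mem h3 h1
    rw [pairZ_add, add_zero, zero_add] at h5
    exact h5
where
  levelPt : (n : ℕ) → Level (Lt K) n
    | 0 => ()
    | n + 1 => (.z, levelPt n)

/-- if the machine does not halt then every level is transitive -/
theorem transitive {t0 : List (Fin K)} (h0 : ¬ Halts P (.s t0)) :
    (RX P (num t0)).LevelTransitive := by
  intro n u w
  obtain ⟨v, i, rfl⟩ := exists_zip n u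
  obtain ⟨v', i', rfl⟩ := exists_zip n w
  have h1 : (i' - i) ∈ shiftGrp P (num t0) n := by
    have h2 : AddSubgroup.closure (Set.range (G P (num t0) n)) ≤ shiftGrp P (num t0) n := by
      rw [AddSubgroup.closure_le]
      rintro _ ⟨v0, rfl⟩
      exact G_mem P (num t0) n v0
    exact h2 (shift_top P h0 n _)
  have h3 := h1 v i
  rw [add_sub_cancel] at h3
  exact h3.trans (conn_left P (num t0) n v v' i')

theorem transitive_iff (t0 : List (Fin K)) :
    (RX P (num t0)).LevelTransitive ↔ ¬ Halts P (.s t0) :=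
  ⟨fun h h' => not_transitive P h' h, fun h => transitive P h⟩

end NonHalt

end Pool.Agent.Helper322.LT
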