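import Pool.Agent.Helper322.LT.QLink

/-!
# The reduction is computable
-/

set_option autoImplicit false

namespace Pool.Agent.Helper322.LT

theorem primrec_replicate {α : Type} [Primcodable α] (a : α) :
    Primrec (fun N : ℕ => List.replicate N a) := by
  have h : Primrec (fun N : ℕ => (List.range N).map (fun _ => a)) :=
    Primrec.list_map Primrec.list_range (Primrec.const a).to₂
  refine h.of_eq fun N => ?_
  rw [List.map_const', List.length_range]

section

variable {K : ℕ} [NeZero K]

theorem W0_eq (N : ℕ) : (W0 N : List (Tl K × Bool)) =
    [(.hash, true), (.cs, true)] ++ List.replicate N (.A true, true) := rfl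

omit [NeZero K] in
theorem invWord_append {S : Type} (u v : List (S × Bool)) :
    invWord (u ++ v) = invWord v ++ invWord u := by
  simp [invWord]

omit [NeZero K] in
theorem invWord_replicate {S : Type} (N : ℕ) (s : S) (b : Bool) :
    invWord (List.replicate N (s, b)) = List.replicate N (s, !b) := by
  simp [invWord]

theorem mword_eq (N : ℕ) : (mword N : List (Option (Tl K) × Bool)) =
    [(none, false)] ++ (List.replicate N (some (.A true), false) ++
      ([(some .cs, false), (some .hash, false), (some .mon, false), (some .hash, true),
        (some .cs, true)] ++ (List.replicate N (some (.A true), true) ++ ([(none, false)] ++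
      (List.replicate N (some (.A true), false) ++
      ([(some .cs, false), (some .hash, false), (some .mon, true), (some .hash, true),
        (some .cs, true)] ++ List.replicate N (some (.A true), true))))))) := by
  have h1 : invWord (W0 N : List (Tl K × Bool)) =
      List.replicate N (.A true, false) ++ [(.cs, false), (.hash, false)] := by
    rw [W0_eq, invWord_append, invWord_replicate]
    rfl
  have h2 : (kw N : List (Tl K × Bool)) = List.replicate N (.A true, false) ++
      ([(.cs, false), (.hash, false), (.mon, true), (.hash, true), (.cs, true)] ++
        List.replicate N (.A true, true)) := by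
    unfold kw
    rw [h1, W0_eq]
    simp
  have h3 : invWord (kw N : List (Tl K × Bool)) = List.replicate N (.A true, false) ++
      ([(.cs, false), (.hash, false), (.mon, false), (.hash, true), (.cs, true)] ++
        List.replicate N (.A true, true)) := by
    rw [h2, invWord_append, invWord_append, invWord_replicate, invWord_replicate]
    simp [invWord]
  unfold mword
  rw [h3, h2]
  simp [up]

theorem primrec_mword {β : Type} [Primcodable β] (g : Option (Tl K) × Bool → β) :
    Primrec (fun N : ℕ => (mword N : List (Option (Tl K) × Bool)).map g) := by
  have h : Primrec (fun N : ℕ => [g (none, false)] ++ (List.replicate N (g (some (.A true), false)) ++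
      (([(some .cs, false), (some .hash, false), (some .mon, false), (some .hash, true),
        (some .cs, true)] : List (Option (Tl K) × Bool)).map g ++
          (List.replicate N (g (some (.A true), true)) ++ ([g (none, false)] ++
      (List.replicate N (g (some (.A true), false)) ++
      (([(some .cs, false), (some .hash, false), (some .mon, true), (some .hash, true),
        (some .cs, true)] : List (Option (Tl K) × Bool)).map g ++
          List.replicate N (g (some (.A true), true))))))))) :=
    Primrec.list_append.comp (Primrec.const _) (Primrec.list_append.comp
      (primrec_replicate _) (Primrec.list_append.comp (Primrec.const _)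
      (Primrec.list_append.comp (primrec_replicate _) (Primrec.list_append.comp (Primrec.const _)
      (Primrec.list_append.comp (primrec_replicate _) (Primrec.list_append.comp (Primrec.const _)
        (primrec_replicate _)))))))
  refine h.of_eq fun N => ?_
  rw [mword_eq]
  simp

variable (P : Fin K → Fin K → List (Fin K))

/-- numbering of the letters -/
noncomputable def eX (K : ℕ) : (Lt K × ZMod 3) ≃ Fin (Nat.card (Lt K × ZMod 3)) :=
  Finite.equivFin _

/-- numbering of the symbols -/
noncomputable def eS (K : ℕ) : Option (Tl K) ≃ Fin (Nat.card (Option (Tl K))) :=
  Finite.equivFin _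

/-- the numbered recursion -/
noncomputable def RF (N : ℕ) :
    Rec (Fin (Nat.card (Lt K × ZMod 3))) (Fin (Nat.card (Option (Tl K)))) :=
  (RX P N).map (eX K) (eS K)

theorem primrec_code : Primrec (fun N => code (RF P N)) := by
  unfold code
  refine Primrec.pair (Primrec.const _) ?_
  apply Primrec.list_ofFn
  intro i
  apply Primrec.list_ofFn
  intro x
  refine Primrec.pair (Primrec.const (((RF P 0).perm i x : Fin _) : ℕ)) ?_
  rcases hi : (eS K).symm i with _ | t
  · by_cases hx : ((eX K).symm x).1 = .z
    · have h := primrec_mword (K := K) (fun t => (((eS K t.1 : Fin _) : ℕ), t.2))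
      refine h.of_eq fun N => ?_
      have e : (RF P N).word i x = (mword N).map fun t => (eS K t.1, t.2) := by
        unfold RF Rec.map
        simp only [hi]
        unfold RX
        simp only [hx, if_true]
      rw [e, List.map_map]
      rfl
    · refine (Primrec.const ([] : List (ℕ × Bool))).of_eq fun N => ?_
      have e : (RF P N).word i x = [] := by
        unfold RF Rec.map
        simp only [hi]
        unfold RX
        simp only [hx, if_false]
        rfl
      rw [e]
      rfl
  · refine (Primrec.const (((RF P 0).word i x).map fun t => ((t.1 : ℕ), t.2))).of_eq fun N => ?_
    have e : (RF P N).word i x = (RF P 0).word i x := by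
      unfold RF Rec.map
      simp only [hi]
      rfl
    rw [e]

theorem RF_transitive_iff (t0 : List (Fin K)) :
    (RF P (num t0)).LevelTransitive ↔ ¬ Halts P (.s t0) := by
  unfold RF
  rw [levelTransitive_map, transitive_iff]

theorem two_le_card (K : ℕ) : 2 ≤ Nat.card (Lt K × ZMod 3) := by
  rw [Nat.card_prod]
  have h1 := card_pos K
  have h2 : Nat.card (ZMod 3) = 3 := by simp
  rw [h2]
  omega

end

end Pool.Agent.Helper322.LT
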