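import Pool.Agent.Helper322.LT.Tools

/-!
# The full recursion: the marker symbol records whether the machine halts
-/

namespace Pool.Agent.Helper322.LT

variable {K : ℕ} [NeZero K] (P : Fin K → Fin K → List (Fin K))

/-! ### levels over `ZMod 3` -/

/-- words over `ZMod 3` form a group -/
instance instLevelZ : (n : ℕ) → AddCommGroup (Level (ZMod 3) n)
  | 0 => inferInstanceAs (AddCommGroup Unit)
  | n + 1 => by
    have := instLevelZ n
    exact inferInstanceAs (AddCommGroup (ZMod 3 × Level (ZMod 3) n))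

theorem levelZ_add (n : ℕ) (a b : ZMod 3) (x y : Level (ZMod 3) n) :
    ((a, x) + (b, y) : Level (ZMod 3) (n + 1)) = (a + b, x + y) := rfl

theorem levelZ_zero (n : ℕ) : (0 : Level (ZMod 3) (n + 1)) = (0, 0) := rfl

theorem levelZ_three (n : ℕ) (x : Level (ZMod 3) n) : -x - x = x := by
  induction n with
  | zero => rfl
  | succ n ih =>
    obtain ⟨a, x⟩ := x
    show ((-a - a, -x - x) : ZMod 3 × Level (ZMod 3) n) = (a, x)
    rw [ih]
    refine Prod.ext ?_ rfl
    show -a - a = a
    revert a; decide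

/-- the last coordinate -/
def lastZ : (n : ℕ) → Level (ZMod 3) (n + 1) → ZMod 3
  | 0, x => x.1
  | n + 1, x => lastZ n x.2

theorem lastZ_add (n : ℕ) (x y : Level (ZMod 3) (n + 1)) :
    lastZ n (x + y) = lastZ n x + lastZ n y := by
  induction n with
  | zero => rfl
  | succ n ih => exact ih x.2 y.2

theorem lastZ_zero (n : ℕ) : lastZ n 0 = 0 := by
  induction n with
  | zero => rfl
  | succ n ih => exact ih

theorem lastZ_neg (n : ℕ) (x : Level (ZMod 3) (n + 1)) : lastZ n (-x) = -lastZ n x := by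
  have := lastZ_add n (-x) x
  rw [neg_add_cancel, lastZ_zero] at this
  exact eq_neg_of_add_eq_zero_left this.symm

theorem lastZ_sub (n : ℕ) (x y : Level (ZMod 3) (n + 1)) :
    lastZ n (x - y) = lastZ n x - lastZ n y := by
  rw [sub_eq_add_neg, lastZ_add, lastZ_neg, sub_eq_add_neg]

/-- a word over `ZMod 3` with last coordinate one -/
def oneZ : (n : ℕ) → Level (ZMod 3) (n + 1)
  | 0 => (1, ())
  | n + 1 => (0, oneZ n)

theorem lastZ_oneZ (n : ℕ) : lastZ n (oneZ n) = 1 := by
  induction n with
  | zero => rfl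
  | succ n ih => exact ih

/-- combining words over two alphabets -/
def zipL {Y : Type} : (n : ℕ) → Level Y n → Level (ZMod 3) n → Level (Y × ZMod 3) n
  | 0, _, _ => ()
  | n + 1, v, i => ((v.1, i.1), zipL n v.2 i.2)

theorem exists_zip {Y : Type} (n : ℕ) (w : Level (Y × ZMod 3) n) :
    ∃ v i, w = zipL n v i := by
  induction n with
  | zero => exact ⟨(), (), rfl⟩
  | succ n ih =>
    obtain ⟨⟨y, a⟩, w⟩ := w
    obtain ⟨v, i, rfl⟩ := ih w
    exact ⟨(y, v), (a, i), rfl⟩

/-- the last `ZMod 3`-coordinate -/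
def lastX {Y : Type} : (n : ℕ) → Level (Y × ZMod 3) (n + 1) → ZMod 3
  | 0, x => x.1.2
  | n + 1, x => lastX n x.2

theorem lastX_zip {Y : Type} (n : ℕ) (v : Level Y (n + 1)) (i : Level (ZMod 3) (n + 1)) :
    lastX n (zipL (n + 1) v i) = lastZ n i := by
  induction n with
  | zero => rfl
  | succ n ih => exact ih v.2 i.2

/-! ### the marker -/

/-- the shift function -/
def phi : Lt K → ZMod 3
  | .y1 => 1
  | .y2 => -1
  | _ => 0

omit [NeZero K] in
theorem phi_swap (y : Lt K) : phi (Equiv.swap Lt.y1 Lt.y2 y) = - phi y := by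
  rcases y with _ | ⟨_, _⟩ | ⟨_, _⟩ | _ | _ | _ | _
  · rw [Equiv.swap_apply_of_ne_of_ne (by simp) (by simp)]; simp [phi]
  · rw [Equiv.swap_apply_of_ne_of_ne (by simp) (by simp)]; simp [phi]
  · rw [Equiv.swap_apply_of_ne_of_ne (by simp) (by simp)]; simp [phi]
  · rw [Equiv.swap_apply_of_ne_of_ne (by simp) (by simp)]; simp [phi]
  · rw [Equiv.swap_apply_of_ne_of_ne (by simp) (by simp)]; simp [phi]
  · rw [Equiv.swap_apply_left]; simp [phi]
  · rw [Equiv.swap_apply_right]; simp [phi]

/-- the word of the configuration `s t`, for a number `N = num t` -/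
def W0 (N : ℕ) : List (Tl K × Bool) :=
  [(.hash, true), (.cs, true)] ++ List.replicate N (.A true, true)

/-- the word `kappa` -/
def kw (N : ℕ) : List (Tl K × Bool) := invWord (W0 N) ++ ([(.mon, true)] ++ W0 N)

/-- the permutation of the letters of the marker -/
def mperm : Equiv.Perm (Lt K × ZMod 3) where
  toFun p := (p.1, p.2 + phi p.1)
  invFun p := (p.1, p.2 - phi p.1)
  left_inv p := by simp
  right_inv p := by simp

/-- tool words as words of the full recursion -/
def up (w : List (Tl K × Bool)) : List (Option (Tl K) × Bool) := w.map fun t => (some t.1, t.2)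

/-- the section of the marker at the letters `(z, i)` -/
def mword (N : ℕ) : List (Option (Tl K) × Bool) :=
  (none, false) :: (up (invWord (kw N)) ++ ((none, false) :: up (kw N)))

/-- the full recursion -/
noncomputable def RX (N : ℕ) : Rec (Lt K × ZMod 3) (Option (Tl K)) where
  perm
    | none => mperm
    | some t => (tperm t).prodCongr (Equiv.refl _)
  word
    | none, p => if p.1 = .z then mword N else []
    | some t, p => up (tword P t p.1)

/-- the group element `kappa` for a configuration -/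
noncomputable def kapC (n : ℕ) (C : Cfg K) : Equiv.Perm (Level (Lt K) n) :=
  (EE P n C)⁻¹ * (ta P n .mon * EE P n C)

theorem eval_W0 (n : ℕ) (t : List (Fin K)) : evalWord (ta P n) (W0 (num t)) = EE P n (.s t) := by
  unfold W0
  rw [evalWord_append, evalWord_replicate, evalWord_cons, evalWord_single]
  rfl

theorem eval_kw (n : ℕ) (t : List (Fin K)) :
    evalWord (ta P n) (kw (num t)) = kapC P n (.s t) := by
  unfold kw kapC
  rw [evalWord_append, evalWord_append, evalWord_inv, eval_W0, evalWord_single]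

theorem up_act_word {n N : ℕ}
    (h : ∀ (t : Tl K) (v : Level (Lt K) n) (i : Level (ZMod 3) n),
      (RX P N).act n (some t) (zipL n v i) = zipL n (ta P n t v) i)
    (w : List (Tl K × Bool)) (v : Level (Lt K) n) (i : Level (ZMod 3) n) :
    evalWord ((RX P N).act n) (up w) (zipL n v i) = zipL n (evalWord (ta P n) w v) i := by
  induction w generalizing v with
  | nil => rfl
  | cons t w ih =>
    have e1 : up (t :: w) = (some t.1, t.2) :: up w := rfl
    rw [e1, evalWord_cons, evalWord_cons, Equiv.Perm.mul_apply, Equiv.Perm.mul_apply, ih]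
    rcases t with ⟨s, b⟩
    cases b
    · simp only [Bool.false_eq_true, if_false]
      rw [Equiv.Perm.inv_eq_iff_eq, h]
      simp
    · simp only [if_true]
      exact h s _ _

theorem act_some (n N : ℕ) (t : Tl K) (v : Level (Lt K) n) (i : Level (ZMod 3) n) :
    (RX P N).act n (some t) (zipL n v i) = zipL n (ta P n t v) i := by
  induction n generalizing t with
  | zero => rfl
  | succ n ih =>
    obtain ⟨y, v⟩ := v
    obtain ⟨a, i⟩ := i
    have e1 : zipL (n + 1) (y, v) (a, i) = ((y, a), zipL n v i) := rfl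
    rw [e1, act_succ]
    have e2 : (RX P N).word (some t) (y, a) = up (tword P t y) := rfl
    rw [e2, up_act_word P ih]
    rfl

theorem act_up (n N : ℕ) (w : List (Tl K × Bool)) (v : Level (Lt K) n)
    (i : Level (ZMod 3) n) :
    evalWord ((RX P N).act n) (up w) (zipL n v i) = zipL n (evalWord (ta P n) w v) i :=
  up_act_word P (act_some P n N) w v i

/-- the shift vector of the marker -/
noncomputable def G (N : ℕ) : (n : ℕ) → Level (Lt K) n → Level (ZMod 3) n
  | 0, _ => ()
  | n + 1, v => (phi v.1,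
      if v.1 = .z then - G N n v.2 - G N n (evalWord (ta P n) (kw N) v.2) else 0)

theorem act_none (n N : ℕ) (v : Level (Lt K) n) (i : Level (ZMod 3) n) :
    (RX P N).act n none (zipL n v i) = zipL n v (i + G P N n v) := by
  induction n with
  | zero => rfl
  | succ n ih =>
    obtain ⟨y, v⟩ := v
    obtain ⟨a, i⟩ := i
    have ihinv : ∀ (v : Level (Lt K) n) (i : Level (ZMod 3) n),
        ((RX P N).act n none)⁻¹ (zipL n v i) = zipL n v (i - G P N n v) := by
      intro v i
      rw [Equiv.Perm.inv_eq_iff_eq, ih]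
      congr 1
      abel
    have e1 : zipL (n + 1) (y, v) (a, i) = ((y, a), zipL n v i) := rfl
    rw [e1, act_succ]
    have e2 : (RX P N).word none (y, a) = if y = .z then mword N else [] := rfl
    have e3 : (RX P N).perm none (y, a) = (y, a + phi y) := rfl
    rw [e2, e3]
    show _ = ((y, a + phi y), zipL n v (i +
      (if y = .z then - G P N n v - G P N n (evalWord (ta P n) (kw N) v) else 0)))
    refine Prod.ext rfl ?_
    show evalWord ((RX P N).act n) (if y = .z then mword N else []) (zipL n v i) = zipL n v (i +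
      (if y = .z then - G P N n v - G P N n (evalWord (ta P n) (kw N) v) else 0))
    by_cases hy : y = .z
    · rw [if_pos hy, if_pos hy]
      unfold mword
      rw [evalWord_cons, evalWord_append, evalWord_cons]
      simp only [Bool.false_eq_true, if_false, Equiv.Perm.mul_apply]
      rw [act_up, ihinv, act_up, ihinv, evalWord_inv]
      have hk : ((evalWord (ta P n) (kw N))⁻¹ ((evalWord (ta P n) (kw N)) v)) = v := by simp
      rw [hk]
      congr 1
      abel
    · rw [if_neg hy, if_neg hy, add_zero]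
      rfl

/-! ### letters -/

omit [NeZero K] in
/-- an element acts on the first letter by a permutation -/
def HasLetter {n : ℕ} (g : Equiv.Perm (Level (Lt K) (n + 1))) (ρ : Equiv.Perm (Lt K)) : Prop :=
  ∀ w, (g w).1 = ρ w.1

omit [NeZero K] in
theorem HasLetter.mul {n : ℕ} {g g' : Equiv.Perm (Level (Lt K) (n + 1))}
    {ρ ρ' : Equiv.Perm (Lt K)} (h : HasLetter g ρ) (h' : HasLetter g' ρ') :
    HasLetter (g * g') (ρ * ρ') := by
  intro w
  rw [Equiv.Perm.mul_apply, h, h', Equiv.Perm.mul_apply]

omit [NeZero K] in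
theorem HasLetter.inv {n : ℕ} {g : Equiv.Perm (Level (Lt K) (n + 1))}
    {ρ : Equiv.Perm (Lt K)} (h : HasLetter g ρ) : HasLetter g⁻¹ ρ⁻¹ := by
  intro w
  have h1 := h (g⁻¹ w)
  have h2 : g (g⁻¹ w) = w := by simp
  rw [h2] at h1
  rw [h1]
  simp

omit [NeZero K] in
theorem HasLetter.pow {n : ℕ} {g : Equiv.Perm (Level (Lt K) (n + 1))}
    {ρ : Equiv.Perm (Lt K)} (h : HasLetter g ρ) (N : ℕ) : HasLetter (g ^ N) (ρ ^ N) := by
  induction N with
  | zero => intro w; rfl
  | succ N ih => rw [pow_succ, pow_succ]; exact ih.mul h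

theorem ta_letter (n : ℕ) (t : Tl K) : HasLetter (ta P (n + 1) t) (tperm t) := fun _ => rfl

theorem EE_letter (n : ℕ) (C : Cfg K) : ∃ ρ, HasLetter (EE P (n + 1) C) ρ := by
  rcases C with t | ⟨x, t⟩ | ⟨x, y, t, b⟩ | ⟨t, b⟩
  · exact ⟨_, ((ta_letter P n _).mul (ta_letter P n _)).mul ((ta_letter P n _).pow _)⟩
  · exact ⟨_, ((ta_letter P n _).mul (ta_letter P n _)).mul ((ta_letter P n _).pow _)⟩
  · exact ⟨_, (((ta_letter P n _).mul ((ta_letter P n _).pow _)).mul (ta_letter P n _)).mul
      ((ta_letter P n _).pow _)⟩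
  · exact ⟨_, (((ta_letter P n _).mul ((ta_letter P n _).pow _)).mul (ta_letter P n _)).mul
      ((ta_letter P n _).pow _)⟩

theorem kapC_letter (n : ℕ) (C : Cfg K) (w : Level (Lt K) (n + 1)) :
    (kapC P (n + 1) C w).1 = w.1 := by
  obtain ⟨ρ, hρ⟩ := EE_letter P n C
  have h := (hρ.inv.mul ((ta_letter P n .mon).mul hρ)) w
  unfold kapC
  rw [h]
  simp [tperm]

theorem kapC_step (C C' : Cfg K) (h : step P C = some C') (n : ℕ) (v : Level (Lt K) n) :
    kapC P (n + 1) C (.z, v) = (.z, kapC P n C' v) := by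
  obtain ⟨y, hy, hE⟩ := EE_step P C C' h
  unfold kapC
  simp only [Equiv.Perm.mul_apply]
  rw [hE, Equiv.Perm.inv_eq_iff_eq, hE, ta_succ]
  have h1 : tperm (K := K) .mon y = y := rfl
  have h2 : tword P .mon y = [(.mon, true)] := by
    rcases y with _ | ⟨_, _⟩ | ⟨_, _⟩ | _ | _ | _ | _ <;> first | rfl | exact absurd rfl hy
  rw [h1, h2, evalWord_single]
  simp

/-- the killing element -/
noncomputable def kst (n : ℕ) : Equiv.Perm (Level (Lt K) n) :=
  (ta P n .hash)⁻¹ * (ta P n .flip * ta P n .hash)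

theorem kst_letter (n : ℕ) (w : Level (Lt K) (n + 1)) :
    (kst P (n + 1) w).1 = Equiv.swap .y1 .y2 w.1 := by
  have h := ((ta_letter P n .hash).inv.mul ((ta_letter P n .flip).mul (ta_letter P n .hash))) w
  unfold kst
  rw [h]
  simp [tperm]

theorem kapC_halt (C : Cfg K) (h : step P C = none) (n : ℕ) (v : Level (Lt K) n) :
    kapC P (n + 1) C (.z, v) = (.z, kst P n v) := by
  unfold kapC kst
  simp only [Equiv.Perm.mul_apply]
  rw [EE_halt P C h, Equiv.Perm.inv_eq_iff_eq, EE_halt P C h, ta_succ]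
  have h1 : tperm (K := K) .mon Lt.hh = Lt.hh := rfl
  have h2 : tword P .mon Lt.hh = [(.flip, true)] := rfl
  rw [h1, h2, evalWord_single]
  simp

omit [NeZero K] in
theorem phi_ne_z {y : Lt K} (h : y = .z) : phi y = 0 := by rw [h]; rfl

end Pool.Agent.Helper322.LT
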