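import Pool.Agent.Helper322.LT.Dich
import Pool.Agent.Helper322.LT.Univ

/-!
# The sweeping machine simulates a universal queue system
-/

set_option autoImplicit false

namespace Pool.Agent.Helper322.LT

open Turing StateTransition Relation Pool.Agent.Helper322.LT.Queue

variable {K : ℕ} (P : Fin K → Fin K → List (Fin K))

theorem halts_iff (C : Cfg K) : Halts P C ↔ (StateTransition.eval (step P) C).Dom := by
  constructor
  · rintro ⟨m, hm⟩
    have : ∀ (m : ℕ) (C : Cfg K), HIn P m C →
        ∃ b, Reaches (step P) C b ∧ step P b = none := by
      intro m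
      induction m with
      | zero => intro C h; exact ⟨C, ReflTransGen.refl, h⟩
      | succ m ih =>
        rintro C ⟨C', hs, h⟩
        obtain ⟨b, hb, hn⟩ := ih C' h
        exact ⟨b, ReflTransGen.head (by exact hs) hb, hn⟩
    obtain ⟨b, hb, hn⟩ := this m C hm
    exact Part.dom_iff_mem.2 ⟨b, StateTransition.mem_eval.2 ⟨hb, hn⟩⟩
  · intro hd
    obtain ⟨b, hb⟩ := Part.dom_iff_mem.1 hd
    obtain ⟨hr, hn⟩ := StateTransition.mem_eval.1 hb
    induction hr using ReflTransGen.head_induction_on with
    | refl => exact ⟨0, hn⟩
    | @head a c hac _ ih =>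
      obtain ⟨m, hm⟩ := ih (Part.dom_iff_mem.2 ⟨b, by
        rw [StateTransition.reaches_eval
          (ReflTransGen.single (by exact hac) : Reaches (step P) a c)] at hb
        exact hb⟩) (by
        rw [StateTransition.reaches_eval
          (ReflTransGen.single (by exact hac) : Reaches (step P) a c)] at hb
        exact hb)
      exact ⟨m + 1, c, hac, hm⟩

/-- the queue step function -/
def qf {S : Type} (P : S → S → List S) : List S → Option (List S)
  | [] => none
  | [_] => some []
  | x :: y :: t => some (t ++ P x y)

theorem reach_copy (x y : Fin K) (t b : List (Fin K)) :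
    Reaches (step P) (.c x y t b) (.c x y [] (t.reverse ++ b)) := by
  induction t generalizing b with
  | nil => exact ReflTransGen.refl
  | cons u t ih =>
    refine ReflTransGen.head (b := .c x y t (u :: b)) rfl ?_
    have h1 := ih (u :: b)
    have h2 : (u :: t).reverse ++ b = t.reverse ++ (u :: b) := by simp
    rw [h2]
    exact h1

theorem reach_rev (t b : List (Fin K)) :
    Reaches (step P) (.r t b) (.r [] (t.reverse ++ b)) := by
  induction t generalizing b with
  | nil => exact ReflTransGen.refl
  | cons u t ih =>
    refine ReflTransGen.head (b := .r t (u :: b)) rfl ?_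
    have h1 := ih (u :: b)
    have h2 : (u :: t).reverse ++ b = t.reverse ++ (u :: b) := by simp
    rw [h2]
    exact h1

theorem respects_step : Respects (qf P) (step P) (fun a b => b = .s a) := by
  intro a b hab
  subst hab
  match a with
  | [] => rfl
  | [x] =>
    refine ⟨_, rfl, ?_⟩
    exact TransGen.head (b := .o x []) rfl (TransGen.single rfl)
  | x :: y :: t =>
    refine ⟨_, rfl, ?_⟩
    refine TransGen.head' (b := .o x (y :: t)) rfl ?_
    refine ReflTransGen.head (b := .c x y t []) rfl ?_
    refine (reach_copy P x y t []).trans ?_
    refine ReflTransGen.head (b := .r ((P x y).reverse ++ (t.reverse ++ [])) []) rfl ?_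
    refine (reach_rev P _ []).trans ?_
    refine ReflTransGen.single ?_
    show step P _ = some _
    simp [step]

theorem eval_step_iff (w : List (Fin K)) :
    (StateTransition.eval (step P) (.s w)).Dom ↔ (StateTransition.eval (qf P) w).Dom :=
  StateTransition.tr_eval_dom (respects_step P) rfl

/-- transport of a queue system -/
def mapP {S : Type} (P : S → S → List S) (e : S ≃ Fin K) (x y : Fin K) : List (Fin K) :=
  (P (e.symm x) (e.symm y)).map e

theorem eval_map_iff {S : Type} (P : S → S → List S) (e : S ≃ Fin K) (w : List S) :
    (StateTransition.eval (qf (mapP P e)) (w.map e)).Dom ↔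
      (StateTransition.eval (qf P) w).Dom := by
  have hr : Respects (qf P) (qf (mapP P e)) (fun a b => b = a.map e) := by
    intro a b hab
    subst hab
    match a with
    | [] => rfl
    | [x] => exact ⟨_, rfl, TransGen.single rfl⟩
    | x :: y :: t =>
      refine ⟨_, rfl, TransGen.single ?_⟩
      show qf (mapP P e) _ = some _
      simp [qf, mapP]
  exact StateTransition.tr_eval_dom hr rfl

section TM

variable {Γ Λ : Type} [Inhabited Γ] [Inhabited Λ]

theorem qstep_qf {S : Type} {P : S → S → List S} {a b : List S} (h : QStep P a b) :
    b ∈ qf P a := by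
  cases h
  rfl

theorem qreach_qf {S : Type} {P : S → S → List S} {a b : List S} (h : QReach P a b) :
    Reaches (qf P) a b := by
  induction h with
  | refl => exact ReflTransGen.refl
  | tail _ h2 ih => exact ih.tail (qstep_qf h2)

omit [Inhabited Λ] in
theorem rep_ne_nil {c : TM0.Cfg Γ Λ} : ¬ Rep c [] := by
  rintro ⟨u, v, l, r, h, -⟩
  simp at h

theorem eval_rep_iff (M : TM0.Machine Γ Λ) {c : TM0.Cfg Γ Λ} {z : List (Sym Γ Λ)}
    (h : Rep c z) : (StateTransition.eval (qf (prod M)) z).Dom ↔
      (StateTransition.eval (TM0.step M) c).Dom := by
  constructor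
  · intro hd
    obtain ⟨b, hb⟩ := Part.dom_iff_mem.1 hd
    obtain ⟨hr, hn⟩ := StateTransition.mem_eval.1 hb
    have hb0 : b = [] := by
      rcases b with _ | ⟨x, _ | ⟨y, t⟩⟩
      · rfl
      · simp [qf] at hn
      · simp [qf] at hn
    subst hb0
    suffices H : ∀ z, Reaches (qf (prod M)) z [] → ∀ c z'', Reaches (qf (prod M)) z z'' →
        Rep c z'' → (StateTransition.eval (TM0.step M) c).Dom from
      H z hr c z ReflTransGen.refl h
    intro z hz
    induction hz using ReflTransGen.head_induction_on with
    | refl =>
      intro c z'' h1 h2
      rcases ReflTransGen.cases_head h1 with rfl | ⟨w, hw, -⟩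
      · exact absurd h2 rep_ne_nil
      · simp [qf] at hw
    | @head a b hab _ ih =>
      intro c z'' h1 h2
      rcases ReflTransGen.cases_head h1 with rfl | ⟨w, hw, hw2⟩
      · rcases hs : TM0.step M c with _ | c'
        · have : c ∈ StateTransition.eval (TM0.step M) c :=
            StateTransition.mem_eval.2 ⟨ReflTransGen.refl, hs⟩
          exact Part.dom_iff_mem.2 ⟨c, this⟩
        · obtain ⟨z', hz', hz''⟩ := (rep_step M c _ h2).1 c' hs
          obtain ⟨w, hw1, hw2⟩ := TransGen.head'_iff.1 hz''
          have hw1' := qstep_qf hw1
          have : w = b := Option.mem_unique hw1' hab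
          subst this
          have := ih c' z' (qreach_qf hw2) hz'
          rwa [StateTransition.reaches_eval
            (ReflTransGen.single (by exact hs) : StateTransition.Reaches (TM0.step M) c c')]
      · have : w = b := Option.mem_unique hw hab
        subst this
        exact ih c z'' hw2 h2
  · intro hd
    have h1 := (rep_halts M h).2 hd
    have h2 : Reaches (qf (prod M)) z [] :=
      (qreach_qf h1).tail (by show qf (prod M) [.kill] = some []; rfl)
    exact Part.dom_iff_mem.2 ⟨[], StateTransition.mem_eval.2 ⟨h2, rfl⟩⟩

end TM

/-- a universal instance -/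
theorem universal : ∃ (K : ℕ) (_ : NeZero K) (P : Fin K → Fin K → List (Fin K))
    (t : ℕ → List (Fin K)), Computable (fun n => num (t n)) ∧
      ∀ n, Halts P (.s (t n)) ↔ (Univ.u n).Dom := by
  classical
  obtain ⟨Λ, i1, i2, M, hM⟩ := Univ.exists_machine
  let S := Queue.Sym (TM2to1.Γ' PartrecToTM2.K' (fun _ => PartrecToTM2.Γ')) Λ
  have fK : Finite PartrecToTM2.K' := by
    refine Finite.of_injective (fun k : PartrecToTM2.K' => match k with
      | .main => (0 : Fin 4)
      | .rev => 1
      | .aux => 2
      | .stack => 3) ?_
    intro a b h
    cases a <;> cases b <;> simp_all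
  have fG : Finite (TM2to1.Γ' PartrecToTM2.K' (fun _ => PartrecToTM2.Γ')) :=
    inferInstanceAs (Finite (Bool × (PartrecToTM2.K' → Option PartrecToTM2.Γ')))
  have fS : Finite S := inferInstanceAs (Finite (Queue.Sym _ _))
  let _ : Fintype S := Fintype.ofFinite S
  have hne : Nonempty S := ⟨Queue.Sym.mark⟩
  let e := Fintype.equivFin S
  let P : S → S → List S := Queue.prod M
  let tape : ℕ → List (TM2to1.Γ' PartrecToTM2.K' (fun _ => PartrecToTM2.Γ')) := fun n =>
    Univ.sym true .cons :: (PartrecToTM2.trNat n).reverse.map (Univ.sym false)
  refine ⟨Fintype.card S, ⟨Fintype.card_ne_zero⟩, mapP P e,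
    fun n => (initWord (tape n)).map e, ?_, ?_⟩
  · -- computability
    let c : S → ℕ := fun z => (e z : ℕ) + 1
    have hnum : ∀ w : List S, num (w.map e) =
        (w.map c).foldr (fun a b => a + (Fintype.card S + 1) * b) 0 := by
      intro w
      induction w with
      | nil => rfl
      | cons a w ih => simp only [List.map_cons, num, ih, List.foldr_cons, c]
    have hw : Computable (fun n => (initWord (tape n)).map c) := by
      have hd := Univ.digits_computable (fun a => c (Queue.Sym.cell (Univ.sym false a)))
      have : (fun n => (initWord (tape n)).map c) = fun n =>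
          (if (((PartrecToTM2.trNat n).map
              (fun a => c (Queue.Sym.cell (Univ.sym false a)))).length + 1) % 2 = 0 then
            [c (Queue.Sym.mark), c (Queue.Sym.head default (Univ.sym true .cons))]
          else [c (Queue.Sym.mark), c (Queue.Sym.cell default),
            c (Queue.Sym.head default (Univ.sym true .cons))]) ++
          ((PartrecToTM2.trNat n).map
            (fun a => c (Queue.Sym.cell (Univ.sym false a)))).reverse := by
        funext n
        simp only [tape, initWord, List.length_cons, List.length_map, List.length_reverse]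
        split_ifs <;> simp [Function.comp_def]
      rw [this]
      have hlen := Computable.list_length.comp hd
      have hmod : Computable (fun n : ℕ => ((((PartrecToTM2.trNat n).map
              (fun a => c (Queue.Sym.cell (Univ.sym false a)))).length + 1) % 2)) :=
        (Primrec.nat_mod.comp (Primrec.succ.comp Primrec.id) (Primrec.const 2)).to_comp.comp hlen
      have hite : Computable (fun n : ℕ => (if (((PartrecToTM2.trNat n).map
              (fun a => c (Queue.Sym.cell (Univ.sym false a)))).length + 1) % 2 = 0 then
            [c (Queue.Sym.mark), c (Queue.Sym.head default (Univ.sym true .cons))]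
          else [c (Queue.Sym.mark), c (Queue.Sym.cell default),
            c (Queue.Sym.head default (Univ.sym true .cons))])) := by
        have hp : Primrec (fun m : ℕ => if m = 0 then
            [c (Queue.Sym.mark), c (Queue.Sym.head default (Univ.sym true .cons))]
          else [c (Queue.Sym.mark), c (Queue.Sym.cell default),
            c (Queue.Sym.head default (Univ.sym true .cons))]) :=
          Primrec.ite (PrimrecRel.comp Primrec.eq Primrec.id (Primrec.const 0))
            (Primrec.const _) (Primrec.const _)
        exact hp.to_comp.comp hmod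
      exact Computable.list_append.comp hite (Computable.list_reverse.comp hd)
    have hf : Primrec (fun l : List ℕ => l.foldr (fun a b => a + (Fintype.card S + 1) * b) 0) := by
      have h2 : Primrec₂ (fun (_ : List ℕ) (p : ℕ × ℕ) => p.1 + (Fintype.card S + 1) * p.2) :=
        (Primrec.nat_add.comp (Primrec.fst.comp Primrec.snd)
          (Primrec.nat_mul.comp (Primrec.const _) (Primrec.snd.comp Primrec.snd))).to₂
      exact Primrec.list_foldr Primrec.id (Primrec.const 0) h2
    have := hf.to_comp.comp hw
    refine this.of_eq fun n => ?_
    exact (hnum _).symm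
  · intro n
    have : NeZero (Fintype.card S) := ⟨Fintype.card_ne_zero⟩
    rw [halts_iff, eval_step_iff, eval_map_iff,
      eval_rep_iff M (rep_init (tape n) (by simp [tape])), hM]

end Pool.Agent.Helper322.LT
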