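import Pool.Agent.Helper322.LT.Defs

/-!
# The tools: simulation of a queue system by sections of group words
-/

namespace Pool.Agent.Helper322.LT

/-- letters -/
inductive Lt (K : ℕ) : Type
  | z
  | d (i : Bool) (j : Fin K)
  | pp (x y : Fin K)
  | rr
  | hh
  | y1
  | y2
deriving DecidableEq

/-- tool symbols -/
inductive Tl (K : ℕ) : Type
  | hash
  | A (i : Bool)
  | cs
  | c1 (x : Fin K)
  | c2 (x y : Fin K)
  | cr
  | mon
  | flip
  | odo
deriving DecidableEq

instance (K : ℕ) : Finite (Lt K) := by
  let f : Lt K → (Fin 5) ⊕ (Bool × Fin K) ⊕ (Fin K × Fin K) := fun s => match s with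
    | .z => .inl 0
    | .d i j => .inr (.inl (i, j))
    | .pp x y => .inr (.inr (x, y))
    | .rr => .inl 1
    | .hh => .inl 2
    | .y1 => .inl 3
    | .y2 => .inl 4
  apply Finite.of_injective f
  intro x y h
  cases x <;> cases y <;> simp_all [f]

instance (K : ℕ) : Finite (Tl K) := by
  let f : Tl K → (Fin 6) ⊕ Bool ⊕ (Fin K) ⊕ (Fin K × Fin K) := fun s => match s with
    | .hash => .inl 0
    | .cs => .inl 1
    | .cr => .inl 2
    | .mon => .inl 3
    | .flip => .inl 4
    | .odo => .inl 5
    | .A i => .inr (.inl i)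
    | .c1 x => .inr (.inr (.inl x))
    | .c2 x y => .inr (.inr (.inr (x, y)))
  apply Finite.of_injective f
  intro x y h
  cases x <;> cases y <;> simp_all [f]

variable {K : ℕ} [NeZero K]

/-- cyclic motion through the digits -/
def cyc (i : Bool) : Lt K → Lt K
  | .z => .d i ⟨0, Nat.pos_of_ne_zero (NeZero.ne K)⟩
  | .d i' j => if i' = i then (if h : j.val + 1 < K then .d i ⟨j.val + 1, h⟩ else .z) else .d i' j
  | .pp x y => .pp x y
  | .rr => .rr
  | .hh => .hh
  | .y1 => .y1
  | .y2 => .y2

/-- the inverse of `cyc` -/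
def cycInv (i : Bool) : Lt K → Lt K
  | .z => .d i ⟨K - 1, Nat.sub_lt (Nat.pos_of_ne_zero (NeZero.ne K)) one_pos⟩
  | .d i' j => if i' = i then (if j.val = 0 then .z else
      .d i ⟨j.val - 1, lt_of_le_of_lt (Nat.sub_le _ _) j.isLt⟩) else .d i' j
  | .pp x y => .pp x y
  | .rr => .rr
  | .hh => .hh
  | .y1 => .y1
  | .y2 => .y2

/-- the permutation `cyc` -/
def cycE (i : Bool) : Equiv.Perm (Lt K) where
  toFun := cyc i
  invFun := cycInv i
  left_inv := by
    intro x
    rcases x with _ | ⟨i', j⟩ | _ | _ | _ | _ | _ <;> try rfl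
    · simp [cyc, cycInv]
    · by_cases h : i' = i
      · subst h
        by_cases h2 : j.val + 1 < K
        · simp [cyc, cycInv, h2]
        · have : K - 1 = j.val := by have := j.isLt; omega
          simp [cyc, cycInv, h2, this]
      · simp [cyc, cycInv, h]
  right_inv := by
    intro x
    rcases x with _ | ⟨i', j⟩ | _ | _ | _ | _ | _ <;> try rfl
    · have hK := Nat.pos_of_ne_zero (NeZero.ne K)
      have : ¬ (K - 1 + 1 < K) := by omega
      simp [cyc, cycInv, this]
    · by_cases h : i' = i
      · subst h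
        by_cases h2 : j.val = 0
        · simp only [cyc, cycInv, h2, if_true]
          congr 1
          exact Fin.ext h2.symm
        · have h3 : j.val - 1 + 1 < K := by have := j.isLt; omega
          simp only [cyc, cycInv, h2, if_true, if_false, h3, dif_pos]
          congr 1
          apply Fin.ext
          show j.val - 1 + 1 = j.val
          omega
      · simp [cyc, cycInv, h]

/-- a numbering of the letters -/
noncomputable def numE (K : ℕ) : Lt K ≃ Fin (Nat.card (Lt K)) := Finite.equivFin _

theorem card_pos (K : ℕ) : 0 < Nat.card (Lt K) := by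
  have : Nonempty (Lt K) := ⟨.z⟩
  exact Nat.card_pos

instance (K : ℕ) : NeZero (Nat.card (Lt K)) := ⟨(card_pos K).ne'⟩

/-- the numbers coding a word of digits -/
def num : List (Fin K) → ℕ
  | [] => 0
  | x :: t => (x.val + 1) + (K + 1) * num t

variable (P : Fin K → Fin K → List (Fin K))

/-- the permutations of the tools -/
noncomputable def tperm : Tl K → Equiv.Perm (Lt K)
  | .hash => 1
  | .A i => cycE i
  | .cs => Equiv.swap .z .hh
  | .c1 _ => Equiv.swap .z .rr
  | .c2 x y => Equiv.swap .z (.pp x y)
  | .cr => Equiv.swap .z .rr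
  | .mon => 1
  | .flip => Equiv.swap .y1 .y2
  | .odo => ((numE K).trans (finRotate (Nat.card (Lt K)))).trans (numE K).symm

open Classical in
/-- the sections of the tools -/
noncomputable def tword : Tl K → Lt K → List (Tl K × Bool)
  | .hash, .pp _ _ => [(.hash, true), (.cr, true)]
  | .hash, .rr => [(.hash, true), (.cs, true)]
  | .hash, _ => [(.hash, true)]
  | .A _, .z => []
  | .A i, .d i' j => if i' = i then (if j.val + 1 < K then [] else [(.A i, true)])
      else List.replicate (K + 1) (.A i, true)
  | .A i, .pp x y => List.replicate ((K + 1) ^ (P x y).length) (.A i, true)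
  | .A i, _ => [(.A i, true)]
  | .cs, .d true x => [(.c1 x, true)]
  | .cs, _ => []
  | .c1 x, .d true y => [(.c2 x y, true)]
  | .c1 _, _ => []
  | .c2 x y, .d true u => List.replicate (u.val + 1) (.A false, true) ++ [(.c2 x y, true)]
  | .c2 x y, .z => List.replicate (num (P x y).reverse) (.A false, true)
  | .c2 _ _, _ => []
  | .cr, .d false u => List.replicate (u.val + 1) (.A true, true) ++ [(.cr, true)]
  | .cr, _ => []
  | .mon, .hh => [(.flip, true)]
  | .mon, _ => [(.mon, true)]
  | .flip, _ => []
  | .odo, x => if (numE K x).val + 1 = Nat.card (Lt K) then [(.odo, true)] else []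

/-- the recursion of the tools -/
noncomputable def RY : Rec (Lt K) (Tl K) := ⟨tperm, tword P⟩

/-- action of a tool on a level -/
noncomputable abbrev ta (n : ℕ) (t : Tl K) : Equiv.Perm (Level (Lt K) n) := (RY P).act n t

theorem ta_succ (n : ℕ) (t : Tl K) (x : Lt K) (v : Level (Lt K) n) :
    ta P (n + 1) t (x, v) = (tperm t x, evalWord (ta P n) (tword P t x) v) := rfl

theorem pow_fix {n : ℕ} {g : Equiv.Perm (Level (Lt K) (n + 1))}
    {h : Equiv.Perm (Level (Lt K) n)} {x : Lt K} (hg : ∀ v, g (x, v) = (x, h v)) (N : ℕ)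
    (v : Level (Lt K) n) : (g ^ N) (x, v) = (x, (h ^ N) v) := by
  induction N generalizing v with
  | zero => rfl
  | succ N ih =>
    rw [pow_succ, pow_succ, Equiv.Perm.mul_apply, Equiv.Perm.mul_apply, hg, ih]

/-- moving through the digits -/
theorem A_digit (n : ℕ) (i : Bool) (j : ℕ) (hj : j < K) (v : Level (Lt K) n) :
    ((ta P (n + 1) (.A i)) ^ (j + 1)) (.z, v) = (.d i ⟨j, hj⟩, v) := by
  induction j with
  | zero =>
    rw [pow_one, ta_succ]
    rfl
  | succ j ih =>
    rw [pow_succ', Equiv.Perm.mul_apply, ih (by omega), ta_succ]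
    have h1 : tperm (K := K) (.A i) (Lt.d i ⟨j, by omega⟩) = (Lt.d i ⟨j + 1, hj⟩ : Lt K) := by
      simp [tperm, cycE, cyc, hj]
    have h2 : tword P (.A i) (Lt.d i ⟨j, by omega⟩) = [] := by
      simp [tword, hj]
    rw [h1, h2]
    rfl

theorem A_cycle (n : ℕ) (i : Bool) (v : Level (Lt K) n) :
    ((ta P (n + 1) (.A i)) ^ (K + 1)) (.z, v) = (.z, ta P n (.A i) v) := by
  have hK := Nat.pos_of_ne_zero (NeZero.ne K)
  obtain ⟨k, hk⟩ : ∃ k, K = k + 1 := ⟨K - 1, by omega⟩
  have h0 : K + 1 = (k + 1) + 1 := by omega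
  rw [h0, pow_succ', Equiv.Perm.mul_apply, A_digit P n i k (by omega), ta_succ]
  have h1 : tperm (K := K) (.A i) (Lt.d i ⟨k, by omega⟩) = (Lt.z : Lt K) := by
    simp [tperm, cycE, cyc, hk]
  have h2 : tword P (.A i) (Lt.d i ⟨k, by omega⟩) = [(.A i, true)] := by
    simp [tword, hk]
  rw [h1, h2, evalWord_single]

theorem A_num_cons (n : ℕ) (i : Bool) (x : Fin K) (t : List (Fin K)) (v : Level (Lt K) n) :
    ((ta P (n + 1) (.A i)) ^ num (x :: t)) (.z, v) =
      (.d i x, ((ta P n (.A i)) ^ num t) v) := by
  show ((ta P (n + 1) (.A i)) ^ ((x.val + 1) + (K + 1) * num t)) (.z, v) = _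
  rw [pow_add, pow_mul, Equiv.Perm.mul_apply, pow_fix (A_cycle P n i), A_digit P n i x.val x.isLt]

theorem A_other (n : ℕ) (i : Bool) (u : Fin K) (N : ℕ) (v : Level (Lt K) n) :
    ((ta P (n + 1) (.A i)) ^ N) (.d (!i) u, v) =
      (.d (!i) u, ((ta P n (.A i)) ^ ((K + 1) * N)) v) := by
  rw [pow_mul]
  apply pow_fix
  intro v
  have hne : ¬ ((!i) = i) := by cases i <;> simp
  have h1 : tperm (K := K) (.A i) (Lt.d (!i) u) = (Lt.d (!i) u : Lt K) := by
    simp [tperm, cycE, cyc]
  have h2 : tword P (.A i) (Lt.d (!i) u) = List.replicate (K + 1) (.A i, true) := by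
    simp [tword]
  rw [ta_succ, h1, h2, evalWord_replicate]

theorem A_pp (n : ℕ) (i : Bool) (x y : Fin K) (N : ℕ) (v : Level (Lt K) n) :
    ((ta P (n + 1) (.A i)) ^ N) (.pp x y, v) =
      (.pp x y, ((ta P n (.A i)) ^ ((K + 1) ^ (P x y).length * N)) v) := by
  rw [pow_mul]
  apply pow_fix
  intro v
  have h1 : tperm (K := K) (.A i) (Lt.pp x y) = (Lt.pp x y : Lt K) := rfl
  have h2 : tword P (.A i) (Lt.pp x y) =
    List.replicate ((K + 1) ^ (P x y).length) (.A i, true) := rfl
  rw [ta_succ, h1, h2, evalWord_replicate]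

theorem A_rr (n : ℕ) (i : Bool) (N : ℕ) (v : Level (Lt K) n) :
    ((ta P (n + 1) (.A i)) ^ N) (.rr, v) = (.rr, ((ta P n (.A i)) ^ N) v) := by
  apply pow_fix
  intro v
  have h1 : tperm (K := K) (.A i) (Lt.rr) = (Lt.rr : Lt K) := rfl
  have h2 : tword P (.A i) Lt.rr = [(.A i, true)] := rfl
  rw [ta_succ, h1, h2, evalWord_single]

theorem A_hh (n : ℕ) (i : Bool) (N : ℕ) (v : Level (Lt K) n) :
    ((ta P (n + 1) (.A i)) ^ N) (.hh, v) = (.hh, ((ta P n (.A i)) ^ N) v) := by
  apply pow_fix
  intro v
  have h1 : tperm (K := K) (.A i) (Lt.hh) = (Lt.hh : Lt K) := rfl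
  have h2 : tword P (.A i) (Lt.hh) = [(.A i, true)] := rfl
  rw [ta_succ, h1, h2, evalWord_single]

omit [NeZero K] in
theorem num_append (u v : List (Fin K)) : num (u ++ v) = num u + (K + 1) ^ u.length * num v := by
  induction u with
  | nil => simp [num]
  | cons x t ih =>
    simp only [List.cons_append, num, ih, List.length_cons, pow_succ]
    ring

/-- configurations of the sweeping machine -/
inductive Cfg (K : ℕ) : Type
  | s (t : List (Fin K))
  | o (x : Fin K) (t : List (Fin K))
  | c (x y : Fin K) (t b : List (Fin K))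
  | r (t b : List (Fin K))

/-- the steps of the sweeping machine -/
def step : Cfg K → Option (Cfg K)
  | .s [] => none
  | .s (x :: t) => some (.o x t)
  | .o _ [] => some (.s [])
  | .o x (y :: t) => some (.c x y t [])
  | .c x y [] b => some (.r ((P x y).reverse ++ b) [])
  | .c x y (u :: t) b => some (.c x y t (u :: b))
  | .r [] b => some (.s b)
  | .r (u :: t) b => some (.r t (u :: b))

/-- the group element coding a configuration -/
noncomputable def EE (n : ℕ) : Cfg K → Equiv.Perm (Level (Lt K) n)
  | .s t => ta P n .hash * ta P n .cs * ta P n (.A true) ^ num t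
  | .o x t => ta P n .hash * ta P n (.c1 x) * ta P n (.A true) ^ num t
  | .c x y t b => ta P n .hash * ta P n (.A false) ^ num b * ta P n (.c2 x y) *
      ta P n (.A true) ^ num t
  | .r t b => ta P n .hash * ta P n (.A true) ^ num b * ta P n .cr *
      ta P n (.A false) ^ num t

/-- one step of the machine is read off from the section at the letter `z` -/
theorem EE_step (C C' : Cfg K) (h : step P C = some C') :
    ∃ y : Lt K, y ≠ .hh ∧ ∀ (n : ℕ) (v : Level (Lt K) n),
      EE P (n + 1) C (.z, v) = (y, EE P n C' v) := by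
  rcases C with t | ⟨x, t⟩ | ⟨x, y, t, b⟩ | ⟨t, b⟩
  · rcases t with _ | ⟨x, t⟩
    · simp [step] at h
    · simp only [step, Option.some.injEq] at h
      subst h
      refine ⟨.d true x, by simp, fun n v => ?_⟩
      simp only [EE, Equiv.Perm.mul_apply]
      rw [A_num_cons, ta_succ]
      have h1 : tperm (.cs) (Lt.d true x) = (Lt.d true x : Lt K) :=
        Equiv.swap_apply_of_ne_of_ne (by simp) (by simp)
      have h2 : tword P (.cs) (Lt.d true x) = [(.c1 x, true)] := rfl
      rw [h1, h2, evalWord_single, ta_succ]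
      have h3 : tperm (.hash) (Lt.d true x) = (Lt.d true x : Lt K) := rfl
      have h4 : tword P (.hash) (Lt.d true x) = [(.hash, true)] := rfl
      rw [h3, h4, evalWord_single]
  · rcases t with _ | ⟨y, t⟩
    · simp only [step, Option.some.injEq] at h
      subst h
      refine ⟨.rr, by simp, fun n v => ?_⟩
      simp only [EE, Equiv.Perm.mul_apply, num, pow_zero, Equiv.Perm.one_apply]
      rw [ta_succ]
      have h1 : tperm (.c1 x) (Lt.z) = (Lt.rr : Lt K) := Equiv.swap_apply_left _ _
      have h2 : tword P (.c1 x) (Lt.z) = [] := rfl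
      rw [h1, h2, evalWord_nil, ta_succ]
      have h3 : tperm (.hash) (Lt.rr) = (Lt.rr : Lt K) := rfl
      have h4 : tword P (.hash) (Lt.rr) = [(.hash, true), (.cs, true)] := rfl
      rw [h3, h4, evalWord_cons, evalWord_single]
      rfl
    · simp only [step, Option.some.injEq] at h
      subst h
      refine ⟨.d true y, by simp, fun n v => ?_⟩
      simp only [EE, Equiv.Perm.mul_apply, num, pow_zero, Equiv.Perm.one_apply]
      have hA := A_num_cons P n true y t v
      simp only [num] at hA
      rw [hA, ta_succ]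
      have h1 : tperm (.c1 x) (Lt.d true y) = (Lt.d true y : Lt K) :=
        Equiv.swap_apply_of_ne_of_ne (by simp) (by simp)
      have h2 : tword P (.c1 x) (Lt.d true y) = [(.c2 x y, true)] := rfl
      rw [h1, h2, evalWord_single, ta_succ]
      have h3 : tperm (.hash) (Lt.d true y) = (Lt.d true y : Lt K) := rfl
      have h4 : tword P (.hash) (Lt.d true y) = [(.hash, true)] := rfl
      rw [h3, h4, evalWord_single]
  · rcases t with _ | ⟨u, t⟩
    · simp only [step, Option.some.injEq] at h
      subst h
      refine ⟨.pp x y, by simp, fun n v => ?_⟩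
      simp only [EE, Equiv.Perm.mul_apply, num, pow_zero, Equiv.Perm.one_apply]
      rw [ta_succ]
      have h1 : tperm (.c2 x y) (Lt.z) = (Lt.pp x y : Lt K) := Equiv.swap_apply_left _ _
      have h2 : tword P (.c2 x y) (Lt.z) =
        List.replicate (num (P x y).reverse) (.A false, true) := rfl
      rw [h1, h2, evalWord_replicate, A_pp, ta_succ]
      have h3 : tperm (.hash) (Lt.pp x y) = (Lt.pp x y : Lt K) := rfl
      have h4 : tword P (.hash) (Lt.pp x y) = [(.hash, true), (.cr, true)] := rfl
      rw [h3, h4, evalWord_cons, evalWord_single]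
      have h5 : num ((P x y).reverse ++ b) =
          (K + 1) ^ (P x y).length * num b + num (P x y).reverse := by
        rw [num_append, List.length_reverse, add_comm]
      rw [h5, pow_add]
      rfl
    · simp only [step, Option.some.injEq] at h
      subst h
      refine ⟨.d true u, by simp, fun n v => ?_⟩
      simp only [EE, Equiv.Perm.mul_apply]
      rw [A_num_cons, ta_succ]
      have h1 : tperm (.c2 x y) (Lt.d true u) = (Lt.d true u : Lt K) :=
        Equiv.swap_apply_of_ne_of_ne (by simp) (by simp)
      have h2 : tword P (.c2 x y) (Lt.d true u) =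
        List.replicate (u.val + 1) (.A false, true) ++ [(.c2 x y, true)] := rfl
      rw [h1, h2, evalWord_append, evalWord_replicate, evalWord_single]
      have hA := A_other P n false u (num b)
      simp only [Bool.not_false] at hA
      rw [hA, ta_succ]
      have h3 : tperm (.hash) (Lt.d true u) = (Lt.d true u : Lt K) := rfl
      have h4 : tword P (.hash) (Lt.d true u) = [(.hash, true)] := rfl
      rw [h3, h4, evalWord_single]
      have h5 : num (u :: b) = (K + 1) * num b + (u.val + 1) := by
        simp only [num]; ring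
      rw [h5, pow_add _ ((K + 1) * num b) (u.val + 1)]
      rfl
  · rcases t with _ | ⟨u, t⟩
    · simp only [step, Option.some.injEq] at h
      subst h
      refine ⟨.rr, by simp, fun n v => ?_⟩
      simp only [EE, Equiv.Perm.mul_apply, num, pow_zero, Equiv.Perm.one_apply]
      rw [ta_succ]
      have h1 : tperm (.cr) (Lt.z) = (Lt.rr : Lt K) := Equiv.swap_apply_left _ _
      have h2 : tword P (.cr) (Lt.z) = [] := rfl
      rw [h1, h2, evalWord_nil, A_rr, ta_succ]
      have h3 : tperm (.hash) (Lt.rr) = (Lt.rr : Lt K) := rfl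
      have h4 : tword P (.hash) (Lt.rr) = [(.hash, true), (.cs, true)] := rfl
      rw [h3, h4, evalWord_cons, evalWord_single]
      rfl
    · simp only [step, Option.some.injEq] at h
      subst h
      refine ⟨.d false u, by simp, fun n v => ?_⟩
      simp only [EE, Equiv.Perm.mul_apply]
      rw [A_num_cons, ta_succ]
      have h1 : tperm (.cr) (Lt.d false u) = (Lt.d false u : Lt K) :=
        Equiv.swap_apply_of_ne_of_ne (by simp) (by simp)
      have h2 : tword P (.cr) (Lt.d false u) =
        List.replicate (u.val + 1) (.A true, true) ++ [(.cr, true)] := rfl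
      rw [h1, h2, evalWord_append, evalWord_replicate, evalWord_single]
      have hA := A_other P n true u (num b)
      simp only [Bool.not_true] at hA
      rw [hA, ta_succ]
      have h3 : tperm (.hash) (Lt.d false u) = (Lt.d false u : Lt K) := rfl
      have h4 : tword P (.hash) (Lt.d false u) = [(.hash, true)] := rfl
      rw [h3, h4, evalWord_single]
      have h5 : num (u :: b) = (K + 1) * num b + (u.val + 1) := by
        simp only [num]; ring
      rw [h5, pow_add _ ((K + 1) * num b) (u.val + 1)]
      rfl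

/-- a halting configuration reaches the letter `hh` -/
theorem EE_halt (C : Cfg K) (h : step P C = none) (n : ℕ) (v : Level (Lt K) n) :
    EE P (n + 1) C (.z, v) = (.hh, ta P n .hash v) := by
  rcases C with t | ⟨x, t⟩ | ⟨x, y, t, b⟩ | ⟨t, b⟩
  · rcases t with _ | ⟨x, t⟩
    · simp only [EE, Equiv.Perm.mul_apply, num, pow_zero, Equiv.Perm.one_apply]
      rw [ta_succ]
      have h1 : tperm (.cs) (Lt.z) = (Lt.hh : Lt K) := Equiv.swap_apply_left _ _
      have h2 : tword P (.cs) (Lt.z) = [] := rfl
      rw [h1, h2, evalWord_nil, ta_succ]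
      have h3 : tperm (.hash) (Lt.hh) = (Lt.hh : Lt K) := rfl
      have h4 : tword P (.hash) (Lt.hh) = [(.hash, true)] := rfl
      rw [h3, h4, evalWord_single]
      rfl
    · simp [step] at h
  · rcases t with _ | ⟨y, t⟩ <;> simp [step] at h
  · rcases t with _ | ⟨u, t⟩ <;> simp [step] at h
  · rcases t with _ | ⟨u, t⟩ <;> simp [step] at h

end Pool.Agent.Helper322.LT
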